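import Pool.Agent.Helper52.SM.Goals

/-! Packet SM-CLG: restriction and normalization of labelled lists. -/

set_option autoImplicit false

namespace Pool.Agent.Helper61.SM

open Pool.Agent.Helper81.CC Pool.Agent.Helper78.DT Pool.Agent.Helper51.ZP
open Pool.Agent.Helper65.CS Pool.Agent.Helper52.SM
open Pool.Agent.Helper78
open scoped Classical

/-- The literals in `s` have the values given by `s`. -/
theorem ov_mem {s : List (ℕ × Bool)} (hnd : (s.map Prod.fst).Nodup) (b : ℕ → Bool)
    {p : ℕ × Bool} (hp : p ∈ s) : ov s b p.1 = p.2 := by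
  obtain ⟨v, β⟩ := p
  show (if s.contains (v, true) then true else if s.contains (v, false) then false
    else b v) = β
  cases β with
  | true => rw [if_pos (List.contains_iff_mem.2 hp)]
  | false =>
    have h1 : ¬ s.contains (v, true) = true := by
      intro h
      have h2 := List.inj_on_of_nodup_map hnd (List.contains_iff_mem.1 h) hp rfl
      simp at h2
    rw [if_neg h1, if_pos (List.contains_iff_mem.2 hp)]

/-- The other coins are not changed. -/
theorem ov_not {s : List (ℕ × Bool)} (b : ℕ → Bool) {v : ℕ} (h : ∀ β, (v, β) ∉ s) :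
    ov s b v = b v := by
  show (if s.contains (v, true) then true else if s.contains (v, false) then false
    else b v) = b v
  rw [if_neg (fun h' => h _ (List.contains_iff_mem.1 h')),
    if_neg (fun h' => h _ (List.contains_iff_mem.1 h'))]

/-- The test. -/
def kp (m : ℕ) (s T : List (ℕ × Bool)) : Bool :=
  T.all fun p => !s.contains (p.1, !p.2) && !T.contains (p.1, !p.2) && !(decide (m ≤ p.1) && p.2)

/-- The restricted term. -/
def rd (m : ℕ) (s T : List (ℕ × Bool)) : List (ℕ × Bool) :=
  (T.filter fun p => decide (p.1 < m) && !s.contains p).dedup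

theorem clg_eq {β : Type} (m : ℕ) (s : List (ℕ × Bool)) (F : List (List (ℕ × Bool) × β)) :
    clg m s F = (F.filter fun e => kp m s e.1).map fun e => (rd m s e.1, e.2) := rfl

theorem kp_iff {m : ℕ} {s T : List (ℕ × Bool)} : kp m s T = true ↔
    ∀ p ∈ T, (p.1, !p.2) ∉ s ∧ (p.1, !p.2) ∉ T ∧ ¬ (m ≤ p.1 ∧ p.2 = true) := by
  unfold kp
  rw [List.all_eq_true]
  refine forall_congr' fun p => forall_congr' fun _ => ?_
  rw [Bool.and_eq_true, Bool.and_eq_true, Bool.not_eq_true', Bool.not_eq_true',
    Bool.not_eq_true', ← Bool.not_eq_true, ← Bool.not_eq_true, ← Bool.not_eq_true,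
    List.contains_iff_mem, List.contains_iff_mem, Bool.and_eq_true, decide_eq_true_iff]
  exact and_assoc

theorem mem_rd {m : ℕ} {s T : List (ℕ × Bool)} {p : ℕ × Bool} :
    p ∈ rd m s T ↔ p ∈ T ∧ p.1 < m ∧ p ∉ s := by
  unfold rd
  rw [List.mem_dedup, List.mem_filter, Bool.and_eq_true, Bool.not_eq_true', ← Bool.not_eq_true,
    List.contains_iff_mem, decide_eq_true_iff]

theorem coins_ge {m : ℕ} (y : Fin m → Bool) {v : ℕ} (h : m ≤ v) : PM.coins y v = false := by
  unfold PM.coins
  rw [dif_neg (not_lt.2 h)]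

theorem kp_false {m : ℕ} {s T : List (ℕ × Bool)} (hnd : (s.map Prod.fst).Nodup)
    (hlt : ∀ p ∈ s, p.1 < m) (y : Fin m → Bool) (h : ¬ kp m s T = true) :
    ¬ ∀ p ∈ T, ov s (PM.coins y) p.1 = p.2 := by
  intro hs
  apply h
  rw [kp_iff]
  intro p hp
  refine ⟨?_, ?_, ?_⟩
  · intro h1
    have h2 := ov_mem hnd (PM.coins y) h1
    have h3 := hs p hp
    rw [show ((p.1, !p.2) : ℕ × Bool).1 = p.1 from rfl, h3] at h2
    cases hb : p.2 <;> rw [hb] at h2 <;> simp at h2
  · intro h1
    have h2 := hs _ h1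
    have h3 := hs p hp
    rw [show ((p.1, !p.2) : ℕ × Bool).1 = p.1 from rfl, h3] at h2
    cases hb : p.2 <;> rw [hb] at h2 <;> simp at h2
  · rintro ⟨h1, h2⟩
    have h3 := hs p hp
    rw [ov_not (PM.coins y) (fun β hβ => absurd (hlt _ hβ) (not_lt.2 h1)), coins_ge y h1, h2] at h3
    cases h3

theorem kp_true {m : ℕ} {s T : List (ℕ × Bool)} (hnd : (s.map Prod.fst).Nodup)
    (y : Fin m → Bool) (h : kp m s T = true) :
    (∀ p ∈ rd m s T, PM.coins y p.1 = p.2) ↔ ∀ p ∈ T, ov s (PM.coins y) p.1 = p.2 := by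
  rw [kp_iff] at h
  have key : ∀ p ∈ T, p ∉ s → ov s (PM.coins y) p.1 = PM.coins y p.1 := by
    intro p hp hps
    apply ov_not
    intro β hβ
    rcases Bool.eq_false_or_eq_true β with h1 | h1 <;>
      rcases Bool.eq_false_or_eq_true p.2 with h2 | h2
    · exact hps (by rw [show p = (p.1, β) from Prod.ext rfl (by rw [h1, h2])]; exact hβ)
    · exact (h p hp).1 (by rw [h2, Bool.not_false, ← h1]; exact hβ)
    · exact (h p hp).1 (by rw [h2, Bool.not_true, ← h1]; exact hβ)
    · exact hps (by rw [show p = (p.1, β) from Prod.ext rfl (by rw [h1, h2])]; exact hβ)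
  constructor
  · intro hr p hp
    by_cases hps : p ∈ s
    · exact ov_mem hnd _ hps
    · rw [key p hp hps]
      by_cases hm : p.1 < m
      · exact hr p (mem_rd.2 ⟨hp, hm, hps⟩)
      · rw [coins_ge y (not_lt.1 hm)]
        rcases Bool.eq_false_or_eq_true p.2 with h2 | h2
        · exact absurd ⟨not_lt.1 hm, h2⟩ (h p hp).2.2
        · exact h2.symm
  · intro hT p hp
    rw [mem_rd] at hp
    rw [← key p hp.1 hp.2.2]
    exact hT p hp.1

theorem clg_cons_pos {β : Type} {m : ℕ} {s : List (ℕ × Bool)} {e : List (ℕ × Bool) × β}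
    {F : List (List (ℕ × Bool) × β)} (h : kp m s e.1 = true) :
    clg m s (e :: F) = (rd m s e.1, e.2) :: clg m s F := by
  rw [clg_eq, clg_eq, List.filter_cons_of_pos (by exact h), List.map_cons]

theorem clg_cons_neg {β : Type} {m : ℕ} {s : List (ℕ × Bool)} {e : List (ℕ × Bool) × β}
    {F : List (List (ℕ × Bool) × β)} (h : ¬ kp m s e.1 = true) :
    clg m s (e :: F) = clg m s F := by
  rw [clg_eq, clg_eq, List.filter_cons_of_neg (by exact h)]

theorem clgS : ClgStmt := by
  intro β m s F d hnd hlt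
  refine ⟨?_, ?_, ?_⟩
  · rw [clg_eq, List.length_map]
    exact List.length_filter_le _ _
  · intro e' he'
    rw [clg_eq, List.mem_map] at he'
    obtain ⟨e, he, rfl⟩ := he'
    rw [List.mem_filter] at he
    have hk := kp_iff.1 he.2
    refine ⟨List.nodup_dedup _, ?_, e, he.1, ?_, rfl⟩
    · intro p hp
      have hp' := mem_rd.1 hp
      refine ⟨hp'.2.1, fun h' => ?_⟩
      exact (hk p hp'.1).2.1 (mem_rd.1 h').1
    · exact le_trans (List.Sublist.length_le (List.dedup_sublist _)) (List.length_filter_le _ _)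
  · intro y
    constructor
    · induction F with
      | nil => rfl
      | cons e F ih =>
        by_cases hk : kp m s e.1 = true
        · rw [clg_cons_pos hk]
          show (if ∀ p ∈ rd m s e.1, PM.coins y p.1 = p.2 then e.2
              else evg d (PM.coins y) (clg m s F)) =
            (if ∀ p ∈ e.1, ov s (PM.coins y) p.1 = p.2 then e.2
              else evg d (ov s (PM.coins y)) F)
          by_cases hs : ∀ p ∈ e.1, ov s (PM.coins y) p.1 = p.2
          · rw [if_pos hs, if_pos ((kp_true hnd y hk).2 hs)]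
          · rw [if_neg hs, if_neg (fun h => hs ((kp_true hnd y hk).1 h)), ih]
        · rw [clg_cons_neg hk, ih]
          show _ = (if ∀ p ∈ e.1, ov s (PM.coins y) p.1 = p.2 then e.2
              else evg d (ov s (PM.coins y)) F)
          rw [if_neg (kp_false hnd hlt y hk)]
    · rintro ⟨e, he, hs⟩
      have hk : kp m s e.1 = true := by
        by_contra h
        exact kp_false hnd hlt y h hs
      refine ⟨(rd m s e.1, e.2), ?_, (kp_true hnd y hk).2 hs⟩
      rw [clg_eq, List.mem_map]
      exact ⟨e, List.mem_filter.2 ⟨he, hk⟩, rfl⟩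

end Pool.Agent.Helper61.SM
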