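import Pool.Agent.Helper52.SM.Goals
import Pool.Agent.Helper61.CS.ALN

/-! Packet SM-FNM: the end of the search, for algorithms. -/

set_option autoImplicit false

namespace Pool.Agent.Helper61.SM

open Pool.Agent.Helper81.CC Pool.Agent.Helper78.DT Pool.Agent.Helper51.ZP
open Pool.Agent.Helper65.CS Pool.Agent.Helper52.SM Pool.Agent.Helper61.CS
open Pool.Agent.Helper78

theorem fnm : FnmStmt := by
  classical
  intro A c x s hnd hlt hal hpos
  have hne : ∃ y : Fin (A.m x) → Bool, A.out (x, PM.results A c x (ov s (PM.coins y))) = true := by
    by_contra h
    push Not at h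
    unfold phi at hpos
    have h0 : pr (fun y : Fin (A.m x) → Bool =>
        A.out (x, PM.results A c x (ov s (PM.coins y))) = true) = 0 := by
      unfold pr av
      apply div_eq_zero_iff.2
      left
      apply Finset.sum_eq_zero
      intro w _
      exact if_neg (h w)
    rw [h0] at hpos
    exact lt_irrefl _ hpos
  obtain ⟨y, hy⟩ := hne
  have hcov : ∀ v : Fin (A.m x), ((v : ℕ), true) ∈ s ∨ ((v : ℕ), false) ∈ s := by
    intro v
    by_contra h
    have h1 : (v : ℕ) ∈ al (A.m x) s :=
      mem_al.2 ⟨v.2, fun h' => h (Or.inl h'), fun h' => h (Or.inr h')⟩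
    rw [hal] at h1
    exact List.not_mem_nil h1
  refine ⟨fun v => s.contains ((v : ℕ), true), ?_, ?_⟩
  · have h2 : ov s (PM.coins y) =
        PM.coins fun v : Fin (A.m x) => s.contains ((v : ℕ), true) := by
      funext v
      show (if s.contains (v, true) then true else if s.contains (v, false) then false
        else PM.coins y v) = _
      by_cases h4 : s.contains (v, true) = true
      · rw [if_pos h4]
        have hv : v < A.m x := hlt _ (List.contains_iff_mem.1 h4)
        unfold PM.coins
        rw [dif_pos hv]
        exact h4.symm
      · rw [if_neg h4]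
        by_cases hv : v < A.m x
        · rcases hcov ⟨v, hv⟩ with h3 | h3
          · exact absurd (List.contains_iff_mem.2 h3) h4
          · rw [if_pos (List.contains_iff_mem.2 h3)]
            unfold PM.coins
            rw [dif_pos hv]
            symm
            rw [← Bool.not_eq_true]
            exact h4
        · rw [if_neg (fun h => hv (hlt _ (List.contains_iff_mem.1 h)))]
          unfold PM.coins
          rw [dif_neg hv, dif_neg hv]
    rw [← h2]
    exact hy
  · unfold asg
    apply List.ext_getElem
    · simp
    · intro i h1 h2
      simp

end Pool.Agent.Helper61.SM
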